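import Pool.Agent.R557.KO.Stm

/-! KO-AVG and KO-INT (helper711): averaging over a compact group. -/

set_option autoImplicit false

namespace Pool.Agent.R557.KO

open Filter Topology MeasureTheory

universe u

namespace AvgIntAux

variable {N : Type u} [Group N] [TopologicalSpace N] [IsTopologicalGroup N] [CompactSpace N]
  [T2Space N] {A : Type} [NormedRing A] [NormedAlgebra ℝ A] [FiniteDimensional ℝ A]

/-- the common integration lemma -/
theorem conj_avg [MeasurableSpace N] [BorelSpace N] (μ : Measure N) [IsFiniteMeasure μ]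
    [μ.IsMulLeftInvariant] (F : N → A) (hF : Continuous F) (a b : N → A)
    (h : ∀ m n, F (m * n) = a m * F n * b m) (m : N) :
    a m * (∫ n, F n ∂μ) * b m = ∫ n, F n ∂μ := by
  haveI : CompleteSpace A := FiniteDimensional.complete ℝ A
  haveI : ProperSpace A := FiniteDimensional.proper ℝ A
  have hi : Integrable F μ :=
    hF.integrable_of_hasCompactSupport (HasCompactSupport.of_compactSpace F)
  have h1 : a m * (∫ n, F n ∂μ) * b m = ∫ n, a m * F n * b m ∂μ := by
    let L : A →L[ℝ] A := ((ContinuousLinearMap.mul ℝ A).flip (b m)).comp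
      (ContinuousLinearMap.mul ℝ A (a m))
    have h2 := L.integral_comp_comm hi
    have h3 : ∀ x, L x = a m * x * b m := fun x => rfl
    simp only [h3] at h2
    exact h2.symm
  rw [h1]
  have h4 : (fun n => a m * F n * b m) = fun n => F (m * n) := by
    funext n
    rw [h]
  rw [h4]
  exact integral_mul_left_eq_self F m

end AvgIntAux

open AvgIntAux

theorem s_AVG : S_AVG.{u} := by
  intro N _ _ _ _ _ A _ _ _ π hπ hπ1 W X hX
  letI : MeasurableSpace N := borel N
  haveI : BorelSpace N := ⟨rfl⟩
  haveI : CompleteSpace A := FiniteDimensional.complete ℝ A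
  haveI : ProperSpace A := FiniteDimensional.proper ℝ A
  let μ : Measure N := Measure.haarMeasure (⊤ : TopologicalSpace.PositiveCompacts N)
  have hμ : μ Set.univ = 1 := by
    have := Measure.haarMeasure_self (K₀ := (⊤ : TopologicalSpace.PositiveCompacts N))
    simpa using this
  haveI : IsProbabilityMeasure μ := ⟨hμ⟩
  let F : N → A := fun n => π n * X * π n⁻¹
  have hF : Continuous F :=
    (hπ.mul continuous_const).mul (hπ.comp continuous_inv)
  have hi : Integrable F μ :=
    hF.integrable_of_hasCompactSupport (HasCompactSupport.of_compactSpace F)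
  refine ⟨∫ n, F n ∂μ, ?_, ?_⟩
  · intro m
    have h1 := conj_avg μ F hF (fun m => π m) (fun m => π m⁻¹) (by
      intro m n
      simp only [F]
      rw [mul_inv_rev, map_mul, map_mul]
      noncomm_ring) m
    have h2 : π m⁻¹ * π m = 1 := by rw [← map_mul, inv_mul_cancel, map_one]
    calc π m * ∫ n, F n ∂μ = π m * (∫ n, F n ∂μ) * (π m⁻¹ * π m) := by rw [h2, mul_one]
      _ = (π m * (∫ n, F n ∂μ) * π m⁻¹) * π m := by noncomm_ring
      _ = (∫ n, F n ∂μ) * π m := by rw [h1]
  · have h1 : X - ∫ n, F n ∂μ = ∫ n, (X - F n) ∂μ := by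
      rw [integral_sub (integrable_const X) hi, integral_const]
      simp
    rw [h1]
    have hconv : Convex ℝ (W : Set A) := W.convex
    exact hconv.integral_mem (Submodule.closed_of_finiteDimensional W)
      (Filter.Eventually.of_forall fun n => hX n) ((integrable_const X).sub hi)

theorem s_INT : S_INT.{u} := by
  intro N _ _ _ _ _ A _ _ _ π hπ hπ1 φ hφ δ hδ
  letI : MeasurableSpace N := borel N
  haveI : BorelSpace N := ⟨rfl⟩
  haveI : CompleteSpace A := FiniteDimensional.complete ℝ A
  haveI : ProperSpace A := FiniteDimensional.proper ℝ A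
  let μ : Measure N := Measure.haarMeasure (⊤ : TopologicalSpace.PositiveCompacts N)
  have hμ : μ Set.univ = 1 := by
    have := Measure.haarMeasure_self (K₀ := (⊤ : TopologicalSpace.PositiveCompacts N))
    simpa using this
  haveI : IsProbabilityMeasure μ := ⟨hμ⟩
  let F : N → A := fun n => π (φ n) * π n⁻¹
  have hF : Continuous F :=
    (hπ.comp hφ).mul (hπ.comp continuous_inv)
  have hi : Integrable F μ :=
    hF.integrable_of_hasCompactSupport (HasCompactSupport.of_compactSpace F)
  refine ⟨∫ n, F n ∂μ, ?_, ?_⟩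
  · have h1 : (∫ n, F n ∂μ) - 1 = ∫ n, (F n - 1) ∂μ := by
      rw [integral_sub hi (integrable_const 1), integral_const]
      simp
    rw [h1]
    have h2 : ∀ n, ‖F n - 1‖ ≤ δ := by
      intro n
      have h3 : F n - 1 = (π (φ n) - π n) * π n⁻¹ := by
        have h4 : π n * π n⁻¹ = 1 := by rw [← map_mul, mul_inv_cancel, map_one]
        rw [sub_mul, h4]
      rw [h3]
      calc ‖(π (φ n) - π n) * π n⁻¹‖ ≤ ‖π (φ n) - π n‖ * ‖π n⁻¹‖ := norm_mul_le _ _
        _ ≤ δ * 1 := mul_le_mul (hδ n) (hπ1 _) (norm_nonneg _) ((norm_nonneg _).trans (hδ n))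
        _ = δ := mul_one δ
    have h5 := norm_integral_le_of_norm_le_const (μ := μ) (Filter.Eventually.of_forall h2)
    simpa using h5
  · intro m
    have h1 := conj_avg μ F hF (fun m => π (φ m)) (fun m => π m⁻¹) (by
      intro m n
      simp only [F]
      rw [mul_inv_rev, map_mul, map_mul, map_mul]
      noncomm_ring) m
    have h2 : π m⁻¹ * π m = 1 := by rw [← map_mul, inv_mul_cancel, map_one]
    calc (∫ n, F n ∂μ) * π m = (π (φ m) * (∫ n, F n ∂μ) * π m⁻¹) * π m := by rw [h1]
      _ = π (φ m) * (∫ n, F n ∂μ) * (π m⁻¹ * π m) := by noncomm_ring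
      _ = π (φ m) * ∫ n, F n ∂μ := by rw [h2, mul_one]

end Pool.Agent.R557.KO
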