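import Pool.Agent.R557.KO.Stm

/-! KO-KK (helper711): the theorem of Kakutani and Kodaira for connected locally compact groups. -/

set_option autoImplicit false

namespace Pool.Agent.R557.KO

open Filter Topology
open scoped Pointwise

universe u

namespace KKAux

variable {G : Type u} [Group G] [TopologicalSpace G] [IsTopologicalGroup G] [T2Space G]
  [LocallyCompactSpace G]

/-- compact symmetric neighbourhoods of `1` -/
def Nb (G : Type u) [Group G] [TopologicalSpace G] : Type u :=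
  {U : Set G // IsCompact U ∧ U ∈ 𝓝 (1 : G) ∧ ∀ x ∈ U, x⁻¹ ∈ U}

theorem ex_nb {U : Set G} (hU : U ∈ 𝓝 (1 : G)) : ∃ V : Nb G, V.1 ⊆ U := by
  obtain ⟨s, hs1, hs2, hs3⟩ := local_compact_nhds hU
  refine ⟨⟨s ∩ s⁻¹, ?_, ?_, ?_⟩, fun x hx => hs2 hx.1⟩
  · exact hs3.inter_right hs3.inv.isClosed
  · apply inter_mem hs1
    have h1 : (fun x : G => x⁻¹) ⁻¹' s ∈ 𝓝 (1 : G) := by
      apply continuous_inv.continuousAt
      show s ∈ 𝓝 ((1 : G)⁻¹)
      rw [inv_one]
      exact hs1
    exact h1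
  · rintro x ⟨h1, h2⟩
    refine ⟨h2, ?_⟩
    rw [Set.mem_inv, inv_inv]
    exact h1

theorem ex_step (K : Set G) (hK : IsCompact K) (U : Nb G) : ∃ V : Nb G,
    (∀ a ∈ V.1, ∀ b ∈ V.1, a * b ∈ U.1) ∧ ∀ x ∈ K, ∀ v ∈ V.1, x * v * x⁻¹ ∈ U.1 := by
  have h1 : ∀ᶠ v in 𝓝 (1 : G), ∀ x ∈ K, x * v * x⁻¹ ∈ U.1 := by
    apply hK.eventually_forall_of_forall_eventually
    intro x _
    have hc : ContinuousAt (fun z : G × G => z.2 * z.1 * z.2⁻¹) (1, x) := by
      apply Continuous.continuousAt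
      fun_prop
    apply hc
    simp only [mul_one, mul_inv_cancel]
    exact U.2.2.1
  obtain ⟨O, hO1, hO2, hO3⟩ := exists_open_nhds_one_mul_subset U.2.2.1
  obtain ⟨V, hV⟩ := ex_nb (inter_mem h1 (hO1.mem_nhds hO2))
  refine ⟨V, ?_, ?_⟩
  · intro a ha b hb
    exact hO3 (Set.mul_mem_mul (hV ha).2 (hV hb).2)
  · intro x hx v hv
    exact (hV hv).1 x hx

theorem pow_compact {W : Set G} (hW : IsCompact W) (n : ℕ) : IsCompact (W ^ n) := by
  induction n with
  | zero =>
    rw [pow_zero]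
    exact isCompact_singleton
  | succ n ih =>
    rw [pow_succ]
    exact ih.mul hW

theorem exhaust [ConnectedSpace G] (W : Nb G) (g : G) : ∃ n : ℕ, g ∈ W.1 ^ n := by
  have h1W : (1 : G) ∈ W.1 := mem_of_mem_nhds W.2.2.1
  let H : Subgroup G :=
    { carrier := ⋃ n : ℕ, W.1 ^ n
      mul_mem' := by
        intro a b ha hb
        rw [Set.mem_iUnion] at ha hb ⊢
        obtain ⟨n, hn⟩ := ha
        obtain ⟨m, hm⟩ := hb
        refine ⟨n + m, ?_⟩
        rw [pow_add]
        exact Set.mul_mem_mul hn hm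
      one_mem' := by
        rw [Set.mem_iUnion]
        exact ⟨0, by rw [pow_zero]; rfl⟩
      inv_mem' := by
        intro a ha
        rw [Set.mem_iUnion] at ha ⊢
        obtain ⟨n, hn⟩ := ha
        refine ⟨n, ?_⟩
        have h2 : W.1⁻¹ = W.1 := by
          ext x
          rw [Set.mem_inv]
          constructor
          · intro h
            have := W.2.2.2 _ h
            rwa [inv_inv] at this
          · intro h
            exact W.2.2.2 _ h
        have h3 : (W.1 ^ n)⁻¹ = W.1 ^ n := by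
          rw [← inv_pow, h2]
        rw [← h3, Set.mem_inv, inv_inv]
        exact hn }
  have hsub : W.1 ⊆ (H : Set G) := by
    intro x hx
    show x ∈ ⋃ n : ℕ, W.1 ^ n
    rw [Set.mem_iUnion]
    exact ⟨1, by rw [pow_one]; exact hx⟩
  have hopen : IsOpen (H : Set G) := H.isOpen_of_mem_nhds (mem_of_superset W.2.2.1 hsub)
  have hclopen : IsClopen (H : Set G) := ⟨H.isClosed_of_isOpen hopen, hopen⟩
  have huniv := hclopen.eq_univ ⟨1, H.one_mem⟩
  have : g ∈ (H : Set G) := by rw [huniv]; exact Set.mem_univ g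
  exact Set.mem_iUnion.1 this

end KKAux

open KKAux

theorem s_KK : S_KK.{u} := by
  intro G _ _ _ _ _ _
  obtain ⟨W, -⟩ := ex_nb (G := G) (U := Set.univ) univ_mem
  have h1W : (1 : G) ∈ W.1 := mem_of_mem_nhds W.2.2.1
  have hstep : ∀ (n : ℕ) (U : Nb G), ∃ V : Nb G,
      (∀ a ∈ V.1, ∀ b ∈ V.1, a * b ∈ U.1) ∧ ∀ x ∈ W.1 ^ n, ∀ v ∈ V.1, x * v * x⁻¹ ∈ U.1 :=
    fun n U => ex_step _ (pow_compact W.2.1 n) U
  choose f hf1 hf2 using hstep
  obtain ⟨U, hU⟩ : ∃ U : ℕ → Nb G, ∀ n, U (n + 1) = f n (U n) :=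
    ⟨fun n => Nat.rec W (fun n U => f n U) n, fun n => rfl⟩
  have hmul : ∀ n, ∀ a ∈ (U (n + 1)).1, ∀ b ∈ (U (n + 1)).1, a * b ∈ (U n).1 := fun n => by
    rw [hU]; exact hf1 n (U n)
  have hconj : ∀ n, ∀ x ∈ W.1 ^ n, ∀ v ∈ (U (n + 1)).1, x * v * x⁻¹ ∈ (U n).1 := fun n => by
    rw [hU]; exact hf2 n (U n)
  have hone : ∀ n, (1 : G) ∈ (U n).1 := fun n => mem_of_mem_nhds (U n).2.2.1
  have hdec : ∀ n, (U (n + 1)).1 ⊆ (U n).1 := by
    intro n x hx
    have := hmul n x hx 1 (hone (n + 1))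
    rwa [mul_one] at this
  have hanti : ∀ n m, n ≤ m → (U m).1 ⊆ (U n).1 := by
    intro n m h
    induction m, h using Nat.le_induction with
    | base => exact subset_rfl
    | succ m _ ih => exact (hdec m).trans ih
  let N : Subgroup G :=
    { carrier := ⋂ n, (U n).1
      mul_mem' := by
        intro a b ha hb
        rw [Set.mem_iInter] at ha hb ⊢
        intro n
        exact hmul n a (ha (n + 1)) b (hb (n + 1))
      one_mem' := by
        rw [Set.mem_iInter]
        exact hone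
      inv_mem' := by
        intro a ha
        rw [Set.mem_iInter] at ha ⊢
        intro n
        exact (U n).2.2.2 a (ha n) }
  have hN : ∀ x, x ∈ N ↔ ∀ n, x ∈ (U n).1 := fun x => Set.mem_iInter
  have hnorm : N.Normal := by
    constructor
    intro a ha g
    rw [hN] at ha ⊢
    obtain ⟨n, hn⟩ := exhaust W g
    intro m
    have h1 : g ∈ W.1 ^ (max n m) := Set.pow_subset_pow_right h1W (le_max_left n m) hn
    exact hanti m (max n m) (le_max_right n m) (hconj _ g h1 a (ha (max n m + 1)))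
  have hcomp : IsCompact (N : Set G) := by
    have h1 : IsClosed (N : Set G) := isClosed_iInter fun n => (U n).2.1.isClosed
    exact (U 0).2.1.of_isClosed_subset h1 (Set.iInter_subset _ 0)
  -- the countable set
  have hcov : ∀ p : ℕ × ℕ, ∃ t : Finset G, W.1 ^ p.1 ⊆ ⋃ g ∈ t, (fun x => g * x) ⁻¹' (U p.2).1 :=
    fun p => compact_covered_by_mul_left_translates (pow_compact W.2.1 p.1)
      ⟨1, mem_interior_iff_mem_nhds.2 (U p.2).2.2.1⟩
  choose t ht using hcov
  have hcount : (⋃ p : ℕ × ℕ, ((t p : Set G) ∪ {1})).Countable :=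
    Set.countable_iUnion fun p => ((t p).countable_toSet).union (Set.countable_singleton 1)
  have hne : (⋃ p : ℕ × ℕ, ((t p : Set G) ∪ {1})).Nonempty :=
    ⟨1, Set.mem_iUnion.2 ⟨(0, 0), Or.inr rfl⟩⟩
  obtain ⟨e, he⟩ := hcount.exists_eq_range hne
  refine ⟨N, fun n => (e n)⁻¹, hnorm, hcomp, ?_⟩
  intro z hz g
  have hclose : ∀ k, ∃ n, e n * g ∈ (U k).1 := by
    intro k
    obtain ⟨m, hm⟩ := exhaust W g
    have h1 := ht (m, k) hm
    rw [Set.mem_iUnion₂] at h1
    obtain ⟨x, hx, hx2⟩ := h1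
    have h2 : x ∈ Set.range e := by
      rw [← he]
      exact Set.mem_iUnion.2 ⟨(m, k), Or.inl hx⟩
    obtain ⟨n, rfl⟩ := h2
    exact ⟨n, hx2⟩
  let S : Set G := ((Subgroup.closure (Set.range z)).topologicalClosure : Set G)
  have hS : IsClosed S := Subgroup.isClosed_topologicalClosure _
  let C : ℕ → Set G := fun k => S ∩ {s | s⁻¹ * g ∈ (U k).1}
  have hCclosed : ∀ k, IsClosed (C k) := by
    intro k
    apply hS.inter
    exact (U k).2.1.isClosed.preimage (by fun_prop : Continuous fun s : G => s⁻¹ * g)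
  have hCne : ∀ k, (C k).Nonempty := by
    intro k
    obtain ⟨n, hn⟩ := hclose (k + 1)
    obtain ⟨a, ha, hd, hcomm⟩ := hz n
    refine ⟨z n, ?_, ?_⟩
    · apply Subgroup.le_topologicalClosure
      exact Subgroup.subset_closure ⟨n, rfl⟩
    · show (z n)⁻¹ * g ∈ (U k).1
      have h1 : (z n)⁻¹ = a * e n := by
        have h2 : (e n)⁻¹ = z n * a := by
          rw [hcomm a ha]
          exact hd
        have h3 : e n = a⁻¹ * (z n)⁻¹ := by
          rw [← mul_inv_rev, ← h2, inv_inv]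
        rw [h3, mul_inv_cancel_left]
      rw [h1, mul_assoc]
      exact hmul k a ((hN a).1 ha (k + 1)) _ hn
  have hC0 : IsCompact (C 0) := by
    have h1 : IsCompact {s : G | s⁻¹ * g ∈ (U 0).1} := by
      have h2 : {s : G | s⁻¹ * g ∈ (U 0).1} = (fun x => g * x⁻¹) '' (U 0).1 := by
        ext s
        constructor
        · intro h
          exact ⟨s⁻¹ * g, h, by
            show g * (s⁻¹ * g)⁻¹ = s
            rw [mul_inv_rev, inv_inv, mul_inv_cancel_left]⟩
        · rintro ⟨x, hx, rfl⟩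
          show (g * x⁻¹)⁻¹ * g ∈ (U 0).1
          rw [mul_inv_rev, inv_inv, inv_mul_cancel_right]
          exact hx
      rw [h2]
      exact (U 0).2.1.image (by fun_prop)
    exact h1.inter_left hS
  obtain ⟨s, hs⟩ := IsCompact.nonempty_iInter_of_sequence_nonempty_isCompact_isClosed C
    (fun k x hx => ⟨hx.1, hdec k hx.2⟩) hCne hC0 hCclosed
  rw [Set.mem_iInter] at hs
  exact ⟨s, (hs 0).1, (hN _).2 fun n => (hs n).2⟩

end Pool.Agent.R557.KO
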