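import Pool.Agent.R557.KO.Stm

/-!
KO-LOC: elements close to `1` that normalize a compact group of elements of a finite-dimensional
normed algebra.
-/

namespace Pool.Agent.R557.KO

open Filter Topology NormedSpace

section

variable {A : Type} [NormedRing A]

theorem pow_diff (a c : A) (C : ℝ) (ha : ‖a‖ ≤ 1) (k : ℕ) (hc : ∀ i < k, ‖c ^ i‖ ≤ C) :
    ‖a ^ k - c ^ k‖ ≤ k * (‖a - c‖ * C) := by
  induction k with
  | zero => simp
  | succ k ih =>
    have h1 := ih (fun i hi => hc i (by omega))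
    have h2 : a ^ (k + 1) - c ^ (k + 1) = a * (a ^ k - c ^ k) + (a - c) * c ^ k := by
      rw [pow_succ' a, pow_succ' c]; noncomm_ring
    rw [h2]
    calc _ ≤ ‖a * (a ^ k - c ^ k)‖ + ‖(a - c) * c ^ k‖ := norm_add_le _ _
      _ ≤ 1 * (k * (‖a - c‖ * C)) + ‖a - c‖ * C := by
        apply add_le_add
        · exact (norm_mul_le _ _).trans
            (mul_le_mul ha h1 (norm_nonneg _) zero_le_one)
        · exact (norm_mul_le _ _).trans
            (mul_le_mul_of_nonneg_left (hc k (by omega)) (norm_nonneg _))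
      _ = _ := by push_cast; ring

variable [NormedAlgebra ℝ A] [NormedAlgebra ℚ A] [CompleteSpace A]

theorem exp_slope (Y : A) (e : ℕ → ℝ) (he : ∀ j, 0 < e j) (he0 : Tendsto e atTop (𝓝 0)) :
    Tendsto (fun j => (e j)⁻¹ • (exp (e j • Y) - 1)) atTop (𝓝 Y) := by
  have h1 := (hasDerivAt_exp_smul_const Y (0 : ℝ)).tendsto_slope_zero_right
  simp only [zero_smul, exp_zero, one_mul, zero_add] at h1
  have h2 : Tendsto e atTop (𝓝[>] 0) :=
    tendsto_nhdsWithin_iff.2 ⟨he0, Eventually.of_forall fun j => he j⟩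
  exact h1.comp h2

theorem limG_nonneg {P : Set A} (hcl : IsClosed P) (h1 : (1 : A) ∈ P)
    (hmul : ∀ a ∈ P, ∀ b ∈ P, a * b ∈ P) (hn : ∀ a ∈ P, ‖a‖ ≤ 1)
    (b : ℕ → A) (e : ℕ → ℝ) (Y : A) (hb : ∀ j, b j ∈ P) (he : ∀ j, 0 < e j)
    (he0 : Tendsto e atTop (𝓝 0))
    (hY : Tendsto (fun j => (e j)⁻¹ • (b j - 1)) atTop (𝓝 Y)) (t : ℝ) (ht : 0 ≤ t) :
    exp (t • Y) ∈ P := by
  have hpow : ∀ a ∈ P, ∀ k : ℕ, a ^ k ∈ P := by
    intro a ha k
    induction k with
    | zero => simpa using h1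
    | succ k ih => rw [pow_succ]; exact hmul _ ih _ ha
  obtain ⟨C, hC⟩ := (isCompact_Icc (a := (0 : ℝ)) (b := t)).exists_bound_of_continuousOn
    (f := fun s : ℝ => exp (s • Y)) (by
      exact (exp_continuous.comp (continuous_id.smul continuous_const)).continuousOn)
  let k : ℕ → ℕ := fun j => ⌊t / e j⌋₊
  have hk1 : ∀ j, (k j : ℝ) * e j ≤ t := fun j => by
    have := Nat.floor_le (div_nonneg ht (he j).le)
    calc (k j : ℝ) * e j ≤ t / e j * e j := by
          apply mul_le_mul_of_nonneg_right this (he j).le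
      _ = t := by field_simp [(he j).ne']
  have hk2 : ∀ j, t - e j ≤ (k j : ℝ) * e j := fun j => by
    have := (Nat.lt_floor_add_one (t / e j)).le
    have h3 : t / e j * e j ≤ ((k j : ℝ) + 1) * e j :=
      mul_le_mul_of_nonneg_right this (he j).le
    have h4 : t / e j * e j = t := by field_simp [(he j).ne']
    rw [h4] at h3
    linarith
  have hk3 : Tendsto (fun j => (k j : ℝ) * e j) atTop (𝓝 t) := by
    apply tendsto_of_tendsto_of_tendsto_of_le_of_le _ tendsto_const_nhds hk2 hk1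
    simpa using tendsto_const_nhds.sub he0
  have hE : Tendsto (fun j => exp (((k j : ℝ) * e j) • Y)) atTop (𝓝 (exp (t • Y))) :=
    (hk3.smul_const Y).exp
  have hexp : ∀ j, ∀ i : ℕ, exp (((i : ℝ) * e j) • Y) = exp (e j • Y) ^ i := by
    intro j i
    rw [← exp_nsmul, ← Nat.cast_smul_eq_nsmul ℝ, smul_smul]
  have hb2 : ∀ j, ‖b j ^ k j - exp (((k j : ℝ) * e j) • Y)‖ ≤
      t * (‖(e j)⁻¹ • (b j - 1) - (e j)⁻¹ • (exp (e j • Y) - 1)‖ * C) := by
    intro j
    rw [hexp]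
    have h5 := pow_diff (b j) (exp (e j • Y)) C (hn _ (hb j)) (k j) (by
      intro i hi
      rw [← hexp]
      apply hC
      constructor
      · have := he j; positivity
      · refine le_trans ?_ (hk1 j)
        apply mul_le_mul_of_nonneg_right _ (he j).le
        exact_mod_cast hi.le)
    have hC0 : 0 ≤ C := le_trans (norm_nonneg _) (hC 0 ⟨le_rfl, ht⟩)
    have h6 : ‖(e j)⁻¹ • (b j - 1) - (e j)⁻¹ • (exp (e j • Y) - 1)‖ =
        (e j)⁻¹ * ‖b j - exp (e j • Y)‖ := by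
      rw [← smul_sub, norm_smul, Real.norm_of_nonneg (inv_nonneg.2 (he j).le)]
      congr 2
      abel
    rw [h6]
    refine h5.trans ?_
    have h7 : (k j : ℝ) ≤ t * (e j)⁻¹ := by
      rw [← div_eq_mul_inv]
      exact Nat.floor_le (div_nonneg ht (he j).le)
    calc (k j : ℝ) * (‖b j - exp (e j • Y)‖ * C)
        ≤ (t * (e j)⁻¹) * (‖b j - exp (e j • Y)‖ * C) := by
          apply mul_le_mul_of_nonneg_right h7
          positivity
      _ = _ := by ring
  have h8 : Tendsto (fun j => t * (‖(e j)⁻¹ • (b j - 1) - (e j)⁻¹ • (exp (e j • Y) - 1)‖ * C))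
      atTop (𝓝 0) := by
    have h9 := ((hY.sub (exp_slope Y e he he0)).norm.mul_const C).const_mul t
    simpa using h9
  have h10 : Tendsto (fun j => b j ^ k j - exp (((k j : ℝ) * e j) • Y)) atTop (𝓝 0) :=
    squeeze_zero_norm hb2 h8
  have h11 : Tendsto (fun j => b j ^ k j) atTop (𝓝 (exp (t • Y))) := by
    have := h10.add hE
    simpa using this
  exact hcl.mem_of_tendsto h11 (Eventually.of_forall fun j => hpow _ (hb j) _)

theorem exp_inv_mem {P : Set A} (hinv : ∀ a ∈ P, ∃ b ∈ P, a * b = 1 ∧ b * a = 1) {Y : A}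
    (h : exp Y ∈ P) : exp (-Y) ∈ P := by
  obtain ⟨b, hb, h1, h2⟩ := hinv _ h
  have h3 : exp (-Y) * exp Y = 1 := by
    rw [← exp_add_of_commute (Commute.refl Y).neg_left, neg_add_cancel, exp_zero]
  have h4 : exp (-Y) = b := by
    calc exp (-Y) = exp (-Y) * (exp Y * b) := by rw [h1, mul_one]
      _ = b := by rw [← mul_assoc, h3, one_mul]
  rw [h4]; exact hb

theorem limG {P : Set A} (hcl : IsClosed P) (h1 : (1 : A) ∈ P)
    (hmul : ∀ a ∈ P, ∀ b ∈ P, a * b ∈ P) (hinv : ∀ a ∈ P, ∃ b ∈ P, a * b = 1 ∧ b * a = 1)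
    (hn : ∀ a ∈ P, ‖a‖ ≤ 1)
    (b : ℕ → A) (e : ℕ → ℝ) (Y : A) (hb : ∀ j, b j ∈ P) (he : ∀ j, 0 < e j)
    (he0 : Tendsto e atTop (𝓝 0))
    (hY : Tendsto (fun j => (e j)⁻¹ • (b j - 1)) atTop (𝓝 Y)) (t : ℝ) :
    exp (t • Y) ∈ P := by
  rcases le_total 0 t with ht | ht
  · exact limG_nonneg hcl h1 hmul hn b e Y hb he he0 hY t ht
  · have h2 := limG_nonneg hcl h1 hmul hn b e Y hb he he0 hY (-t) (by linarith)
    have h3 := exp_inv_mem hinv h2
    rwa [neg_smul, neg_neg] at h3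

theorem prod_slope (p q : ℕ → A) (e : ℕ → ℝ) (Y Z : A) (he : ∀ j, 0 < e j)
    (he0 : Tendsto e atTop (𝓝 0))
    (hp : Tendsto (fun j => (e j)⁻¹ • (p j - 1)) atTop (𝓝 Y))
    (hq : Tendsto (fun j => (e j)⁻¹ • (q j - 1)) atTop (𝓝 Z)) :
    Tendsto (fun j => (e j)⁻¹ • (p j * q j - 1)) atTop (𝓝 (Y + Z)) := by
  have h1 : Tendsto q atTop (𝓝 1) := by
    have h2 := (he0.smul hq).add_const 1
    rw [zero_smul, zero_add] at h2
    refine h2.congr fun j => ?_
    rw [smul_smul, mul_inv_cancel₀ (he j).ne', one_smul, sub_add_cancel]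
  have h3 := (hp.mul h1).add hq
  rw [mul_one] at h3
  refine h3.congr fun j => ?_
  rw [smul_mul_assoc, ← smul_add]
  congr 1
  noncomm_ring

/-- the Lie algebra of a closed group of elements of norm at most one -/
def lieSub (P : Set A) (hcl : IsClosed P) (h1 : (1 : A) ∈ P)
    (hmul : ∀ a ∈ P, ∀ b ∈ P, a * b ∈ P) (hinv : ∀ a ∈ P, ∃ b ∈ P, a * b = 1 ∧ b * a = 1)
    (hn : ∀ a ∈ P, ‖a‖ ≤ 1) : Submodule ℝ A where
  carrier := {Y | ∀ t : ℝ, exp (t • Y) ∈ P}
  zero_mem' := by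
    intro t
    simpa using h1
  add_mem' := by
    intro Y Z hY hZ t
    have he : ∀ j : ℕ, 0 < (1 : ℝ) / ((j : ℝ) + 1) := fun j => by positivity
    exact limG hcl h1 hmul hinv hn
      (fun j => exp ((1 / ((j : ℝ) + 1)) • Y) * exp ((1 / ((j : ℝ) + 1)) • Z))
      (fun j => 1 / ((j : ℝ) + 1)) (Y + Z) (fun j => hmul _ (hY _) _ (hZ _)) he
      tendsto_one_div_add_atTop_nhds_zero_nat
      (prod_slope _ _ _ _ _ he tendsto_one_div_add_atTop_nhds_zero_nat
        (exp_slope Y _ he tendsto_one_div_add_atTop_nhds_zero_nat)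
        (exp_slope Z _ he tendsto_one_div_add_atTop_nhds_zero_nat)) t
  smul_mem' := by
    intro c Y hY t
    rw [smul_smul]
    exact hY _

end

theorem s_LOC : S_LOC := by
  intro A _ _ _ P hcl h1 hmul hinv hn hav
  let _ : NormedAlgebra ℚ A := NormedAlgebra.restrictScalars ℚ ℝ A
  have _ : CompleteSpace A := FiniteDimensional.complete ℝ A
  have _ : ProperSpace A := FiniteDimensional.proper ℝ A
  have hone : ‖(1 : A)‖ ≤ 1 := hn 1 h1
  by_contra hcon
  push Not at hcon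
  have hex : ∀ j : ℕ, ∃ T : A, ‖T - 1‖ < 1 / ((j : ℝ) + 2) ∧
      (∀ a ∈ P, ∃ b ∈ P, T * a = b * T) ∧
      ∀ p ∈ P, ∀ c : A, (∀ a ∈ P, a * c = c * a) → T ≠ p * c :=
    fun j => hcon (1 / ((j : ℝ) + 2)) (by positivity)
  choose T hT hTn hTP using hex
  have hT2 : ∀ j, ‖T j - 1‖ ≤ 1 / 2 := fun j => (hT j).le.trans (by
    apply one_div_le_one_div_of_le (by norm_num)
    have : (0 : ℝ) ≤ j := by positivity
    linarith)
  have hPc : IsCompact P := Metric.isCompact_of_isClosed_isBounded hcl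
    ((Metric.isBounded_closedBall (x := (0 : A)) (r := 1)).subset fun a ha => by
      rw [mem_closedBall_zero_iff]; exact hn a ha)
  have hCc : IsClosed {c : A | ∀ a ∈ P, a * c = c * a} := by
    simp only [Set.ofPred_forall]
    refine isClosed_iInter fun a => isClosed_iInter fun _ => isClosed_eq (by fun_prop) (by fun_prop)
  have hKc : IsCompact (P ×ˢ ({c : A | ∀ a ∈ P, a * c = c * a} ∩ Metric.closedBall 0 3)) :=
    hPc.prod ((isCompact_closedBall (0 : A) 3).inter_left hCc)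
  have h11 : ((1 : A), (1 : A)) ∈
      P ×ˢ ({c : A | ∀ a ∈ P, a * c = c * a} ∩ Metric.closedBall 0 3) := by
    refine ⟨h1, fun a _ => by simp, ?_⟩
    rw [mem_closedBall_zero_iff]
    exact hone.trans (by norm_num)
  have hmin : ∀ j, ∃ x ∈ P ×ˢ ({c : A | ∀ a ∈ P, a * c = c * a} ∩ Metric.closedBall 0 3),
      IsMinOn (fun x : A × A => ‖x.1 * T j * x.2 - 1‖)
        (P ×ˢ ({c : A | ∀ a ∈ P, a * c = c * a} ∩ Metric.closedBall 0 3)) x := fun j =>
    hKc.exists_isMinOn ⟨_, h11⟩ (by fun_prop)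
  choose x hxK hxmin using hmin
  have hpP : ∀ j, (x j).1 ∈ P := fun j => (hxK j).1
  have hcC : ∀ j, ∀ a ∈ P, a * (x j).2 = (x j).2 * a := fun j => (hxK j).2.1
  obtain ⟨S, hS⟩ : ∃ S : ℕ → A, ∀ j, S j = (x j).1 * T j * (x j).2 := ⟨_, fun j => rfl⟩
  obtain ⟨e, he⟩ : ∃ e : ℕ → ℝ, ∀ j, e j = ‖S j - 1‖ := ⟨_, fun j => rfl⟩
  have hmin2 : ∀ j, ∀ p ∈ P, ∀ c : A, (∀ a ∈ P, a * c = c * a) → ‖c‖ ≤ 3 →
      e j ≤ ‖p * T j * c - 1‖ := by
    intro j p hp c hc hc3
    rw [he, hS]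
    exact hxmin j (show (p, c) ∈ _ from ⟨hp, hc, by rwa [mem_closedBall_zero_iff]⟩)
  have hele : ∀ j, e j ≤ ‖T j - 1‖ := by
    intro j
    have := hmin2 j 1 h1 1 (fun a _ => by simp) (hone.trans (by norm_num))
    simpa using this
  have he0 : Tendsto e atTop (𝓝 0) := by
    have h2 : Tendsto (fun j : ℕ => 1 / ((j : ℝ) + 2)) atTop (𝓝 0) := by
      have h3 := (tendsto_one_div_add_atTop_nhds_zero_nat (𝕜 := ℝ)).comp (tendsto_add_atTop_nat 1)
      refine h3.congr fun j => ?_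
      simp only [Function.comp_apply]
      push_cast
      ring
    exact squeeze_zero (fun j => by rw [he]; exact norm_nonneg _)
      (fun j => (hele j).trans (hT j).le) h2
  have hepos : ∀ j, 0 < e j := by
    intro j
    refine lt_of_le_of_ne (by rw [he]; exact norm_nonneg _) fun h0 => ?_
    have h2 : (x j).1 * T j * (x j).2 = 1 := by
      rw [← hS, ← sub_eq_zero, ← norm_eq_zero, ← he, ← h0]
    obtain ⟨q, hq, hq1, hq2⟩ := hinv _ (hpP j)
    have hlt : ‖1 - T j‖ < 1 := by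
      rw [norm_sub_rev]; exact (hT2 j).trans_lt (by norm_num)
    obtain ⟨u, hu⟩ : ∃ u : Aˣ, (u : A) = T j := ⟨Units.oneSub (1 - T j) hlt, by simp⟩
    have h3 : (x j).2 = ↑u⁻¹ * q := by
      calc (x j).2 = ↑u⁻¹ * (q * (x j).1) * (↑u * (x j).2) := by rw [hq2]; simp
        _ = ↑u⁻¹ * q * ((x j).1 * T j * (x j).2) := by rw [hu]; noncomm_ring
        _ = ↑u⁻¹ * q := by rw [h2, mul_one]
    have h4 : (x j).2 * ((x j).1 * T j) = 1 := by
      rw [h3, ← hu]
      calc ↑u⁻¹ * q * ((x j).1 * ↑u) = ↑u⁻¹ * (q * (x j).1) * ↑u := by noncomm_ring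
        _ = 1 := by rw [hq2]; simp
    apply hTP j q hq ((x j).1 * T j)
    · intro a ha
      calc a * ((x j).1 * T j) = ((x j).1 * T j * (x j).2) * a * ((x j).1 * T j) := by
            rw [h2, one_mul]
        _ = (x j).1 * T j * ((x j).2 * a) * ((x j).1 * T j) := by noncomm_ring
        _ = (x j).1 * T j * (a * (x j).2) * ((x j).1 * T j) := by rw [hcC j a ha]
        _ = (x j).1 * T j * a * ((x j).2 * ((x j).1 * T j)) := by noncomm_ring
        _ = (x j).1 * T j * a := by rw [h4, mul_one]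
    · rw [← mul_assoc, hq2, one_mul]
  -- norm of the second factor
  have hcn : ∀ j, ‖(x j).2‖ ≤ 2 * (1 + e j) := by
    intro j
    obtain ⟨q, hq, hq1, hq2⟩ := hinv _ (hpP j)
    have h2 : (x j).2 = q * S j - (T j - 1) * (x j).2 := by
      rw [hS]
      calc (x j).2 = (q * (x j).1) * T j * (x j).2 - (T j - 1) * (x j).2 := by
            rw [hq2]; noncomm_ring
        _ = _ := by noncomm_ring
    have h3 : ‖S j‖ ≤ 1 + e j := by
      calc ‖S j‖ = ‖1 + (S j - 1)‖ := by congr 1; abel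
        _ ≤ ‖(1 : A)‖ + ‖S j - 1‖ := norm_add_le _ _
        _ ≤ 1 + e j := by rw [he]; exact add_le_add hone le_rfl
    have h4 : ‖(x j).2‖ ≤ 1 * (1 + e j) + 1 / 2 * ‖(x j).2‖ := by
      calc ‖(x j).2‖ = ‖q * S j - (T j - 1) * (x j).2‖ := by rw [← h2]
        _ ≤ ‖q * S j‖ + ‖(T j - 1) * (x j).2‖ := norm_sub_le _ _
        _ ≤ 1 * (1 + e j) + 1 / 2 * ‖(x j).2‖ := by
          apply add_le_add
          · exact (norm_mul_le _ _).trans (mul_le_mul (hn _ hq) h3 (norm_nonneg _) zero_le_one)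
          · exact (norm_mul_le _ _).trans
              (mul_le_mul_of_nonneg_right (hT2 j) (norm_nonneg _))
    linarith
  -- conjugation
  have hconj : ∀ a ∈ P, ∀ b ∈ P, a * b = 1 → ∀ j, ∃ d ∈ P, S j * a = d * a * S j := by
    intro a ha b hb hab j
    obtain ⟨a', ha', h2, h3⟩ := hinv a ha
    have hba : b * a = 1 := by
      have : b = a' := by
        calc b = a' * a * b := by rw [h3, one_mul]
          _ = a' := by rw [mul_assoc, hab, mul_one]
      rw [this, h3]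
    obtain ⟨a'', ha'', h4⟩ := hTn j a ha
    obtain ⟨q, hq, hq1, hq2⟩ := hinv _ (hpP j)
    refine ⟨(x j).1 * a'' * q * b,
      hmul _ (hmul _ (hmul _ (hpP j) _ ha'') _ hq) _ hb, ?_⟩
    rw [hS]
    calc (x j).1 * T j * (x j).2 * a = (x j).1 * T j * ((x j).2 * a) := by noncomm_ring
      _ = (x j).1 * T j * (a * (x j).2) := by rw [hcC j a ha]
      _ = (x j).1 * (T j * a) * (x j).2 := by noncomm_ring
      _ = (x j).1 * (a'' * T j) * (x j).2 := by rw [h4]
      _ = (x j).1 * a'' * (q * (x j).1) * (T j * (x j).2) := by rw [hq2]; noncomm_ring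
      _ = (x j).1 * a'' * q * (b * a) * ((x j).1 * T j * (x j).2) := by
          rw [hba]; noncomm_ring
      _ = _ := by noncomm_ring
  obtain ⟨X, hX⟩ : ∃ X : ℕ → A, ∀ j, X j = (e j)⁻¹ • (S j - 1) := ⟨_, fun j => rfl⟩
  have hXn : ∀ j, X j ∈ Metric.sphere (0 : A) 1 := by
    intro j
    rw [mem_sphere_zero_iff_norm, hX, norm_smul, Real.norm_of_nonneg (inv_nonneg.2 (hepos j).le),
      ← he, inv_mul_cancel₀ (hepos j).ne']
  have hSX : ∀ j, S j = 1 + e j • X j := by
    intro j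
    rw [hX, smul_smul, mul_inv_cancel₀ (hepos j).ne', one_smul]
    abel
  obtain ⟨Z, hZ, φ, hφ, hlim⟩ := (isCompact_sphere (0 : A) 1).tendsto_subseq hXn
  have heφ : Tendsto (fun j => e (φ j)) atTop (𝓝 0) := he0.comp hφ.tendsto_atTop
  have hlim' : Tendsto (fun j => X (φ j)) atTop (𝓝 Z) := hlim
  have hW : ∀ a ∈ P, ∀ b ∈ P, a * b = 1 → Z - a * Z * b ∈ lieSub P hcl h1 hmul hinv hn := by
    intro a ha b hb hab
    choose d hd hdS using hconj a ha b hb hab
    have hd1 : ∀ j, d j - 1 = e j • (X j - d j * a * X j * b) := by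
      intro j
      have h2 := hdS j
      rw [hSX] at h2
      have h3 : (1 + e j • X j) * a * b = d j * a * (1 + e j • X j) * b := by rw [h2]
      have h4 : (1 + e j • X j) * a * b = 1 + e j • X j := by rw [mul_assoc, hab, mul_one]
      have h5 : d j * a * (1 + e j • X j) * b = d j + e j • (d j * a * X j * b) := by
        rw [mul_add, add_mul, mul_one, mul_assoc (d j) a b, hab, mul_one, mul_smul_comm,
          smul_mul_assoc]
      rw [h4, h5] at h3
      rw [smul_sub, sub_eq_sub_iff_add_eq_add, add_comm (e j • X j) 1, h3, ]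
    have hdn : ∀ j, ‖d j - 1‖ ≤ e j * 2 := by
      intro j
      have hXj : ‖X j‖ = 1 := by simpa using hXn j
      rw [hd1, norm_smul, Real.norm_of_nonneg (hepos j).le]
      apply mul_le_mul_of_nonneg_left _ (hepos j).le
      calc ‖X j - d j * a * X j * b‖ ≤ ‖X j‖ + ‖d j * a * X j * b‖ := norm_sub_le _ _
        _ ≤ 1 + 1 * 1 * 1 * 1 := by
          apply add_le_add hXj.le
          refine (norm_mul_le _ _).trans (mul_le_mul ?_ (hn b hb) (norm_nonneg _) (by norm_num))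
          refine (norm_mul_le _ _).trans (mul_le_mul ?_ hXj.le (norm_nonneg _) (by norm_num))
          refine (norm_mul_le _ _).trans (mul_le_mul (hn _ (hd j)) (hn a ha) (norm_nonneg _)
            (by norm_num))
        _ = 2 := by norm_num
    have hdlim : Tendsto (fun j => d (φ j)) atTop (𝓝 1) := by
      rw [tendsto_iff_norm_sub_tendsto_zero]
      refine squeeze_zero (fun _ => norm_nonneg _) (fun j => hdn (φ j)) ?_
      simpa using heφ.mul_const 2
    intro t
    refine limG hcl h1 hmul hinv hn (fun j => d (φ j)) (fun j => e (φ j)) _ (fun j => hd _)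
      (fun j => hepos _) heφ ?_ t
    have h6 : Tendsto (fun j => X (φ j) - d (φ j) * a * X (φ j) * b) atTop
        (𝓝 (Z - 1 * a * Z * b)) :=
      hlim'.sub (((hdlim.mul_const a).mul hlim').mul_const b)
    rw [one_mul] at h6
    refine h6.congr fun j => ?_
    rw [hd1, smul_smul, inv_mul_cancel₀ (hepos _).ne', one_smul]
  obtain ⟨Y, hYc, hYW⟩ := hav (lieSub P hcl h1 hmul hinv hn) Z hW
  -- the competitor
  obtain ⟨p', hp'⟩ : ∃ p' : ℕ → A, ∀ j, p' j = exp (e (φ j) • (-(Z - Y))) := ⟨_, fun j => rfl⟩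
  obtain ⟨c', hc'⟩ : ∃ c' : ℕ → A, ∀ j, c' j = exp (e (φ j) • (-Y)) := ⟨_, fun j => rfl⟩
  have hp'P : ∀ j, p' j ∈ P := by
    intro j
    rw [hp', smul_neg, ← neg_smul]
    exact hYW _
  have hc'C : ∀ j, ∀ a ∈ P, a * c' j = c' j * a := by
    intro j a ha
    rw [hc']
    have : Commute a (e (φ j) • (-Y)) := by
      apply Commute.smul_right
      apply Commute.neg_right
      exact hYc a ha
    exact this.exp_right
  have hp's : Tendsto (fun j => (e (φ j))⁻¹ • (p' j - 1)) atTop (𝓝 (-(Z - Y))) := by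
    have := exp_slope (-(Z - Y)) (fun j => e (φ j)) (fun j => hepos _) heφ
    simpa only [hp'] using this
  have hc's : Tendsto (fun j => (e (φ j))⁻¹ • (c' j - 1)) atTop (𝓝 (-Y)) := by
    have := exp_slope (-Y) (fun j => e (φ j)) (fun j => hepos _) heφ
    simpa only [hc'] using this
  have hSs : Tendsto (fun j => (e (φ j))⁻¹ • (S (φ j) - 1)) atTop (𝓝 Z) := by
    refine hlim'.congr fun j => ?_
    rw [hX]
  have h3s := prod_slope _ _ (fun j => e (φ j)) _ _ (fun j => hepos _) heφ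
    (prod_slope _ _ (fun j => e (φ j)) _ _ (fun j => hepos _) heφ hp's hSs) hc's
  have hzero : -(Z - Y) + Z + -Y = 0 := by abel
  rw [hzero] at h3s
  have hc'1 : Tendsto c' atTop (𝓝 1) := by
    have h2 := (heφ.smul_const (-Y)).exp
    rw [zero_smul, exp_zero] at h2
    refine h2.congr fun j => ?_
    rw [hc']
  have hbd : ∀ᶠ j in atTop, 2 * (1 + e (φ j)) * ‖c' j‖ < 3 := by
    have h2 : Tendsto (fun j => 2 * (1 + e (φ j)) * ‖c' j‖) atTop
        (𝓝 (2 * (1 + 0) * ‖(1 : A)‖)) :=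
      ((heφ.const_add 1).const_mul 2).mul hc'1.norm
    exact h2.eventually_lt_const (by linarith)
  have hlow : ∀ᶠ j in atTop, 1 ≤ ‖(e (φ j))⁻¹ • (p' j * S (φ j) * c' j - 1)‖ := by
    filter_upwards [hbd] with j hj
    rw [norm_smul, Real.norm_of_nonneg (inv_nonneg.2 (hepos _).le)]
    have h2 : e (φ j) ≤ ‖p' j * (x (φ j)).1 * T (φ j) * ((x (φ j)).2 * c' j) - 1‖ := by
      apply hmin2
      · exact hmul _ (hp'P j) _ (hpP _)
      · intro a ha
        rw [← mul_assoc, hcC _ a ha, mul_assoc, hc'C j a ha, mul_assoc]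
      · refine (norm_mul_le _ _).trans (le_trans ?_ hj.le)
        exact mul_le_mul_of_nonneg_right (hcn _) (norm_nonneg _)
    have h3 : p' j * (x (φ j)).1 * T (φ j) * ((x (φ j)).2 * c' j) =
        p' j * S (φ j) * c' j := by rw [hS]; noncomm_ring
    rw [h3] at h2
    rw [← inv_mul_cancel₀ (hepos (φ j)).ne']
    exact mul_le_mul_of_nonneg_left h2 (inv_nonneg.2 (hepos _).le)
  have hfin := ge_of_tendsto h3s.norm hlow
  rw [norm_zero] at hfin
  linarith

end Pool.Agent.R557.KO
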