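import Pool.Agent.R557.KO.Stm

/-! KO-WT: subspaces of separable regular spaces have weight at most the continuum. -/

namespace Pool.Agent.R557.KO

open Filter Topology TopologicalSpace

universe u

theorem s_WT : S_WT.{u} := by
  intro G _ _ z K hK
  set Y : Set G := closure (Set.range z) with hY
  set zY : ℕ → Y := fun n => ⟨z n, subset_closure (Set.mem_range_self n)⟩ with hzY
  have hdense : Dense (Set.range zY) := by
    intro y
    rw [closure_subtype]
    have h1 : ((↑) : Y → G) '' (Set.range zY) = Set.range z := by
      ext x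
      constructor
      · rintro ⟨_, ⟨n, rfl⟩, rfl⟩
        exact ⟨n, rfl⟩
      · rintro ⟨n, rfl⟩
        exact ⟨zY n, ⟨n, rfl⟩, rfl⟩
    rw [h1]
    exact y.2
  set f : Set ℕ → Set Y := fun A => interior (closure (zY '' A)) with hf
  have hbasis : IsTopologicalBasis (Set.range f) := by
    apply isTopologicalBasis_of_isOpen_of_nhds
    · rintro _ ⟨A, rfl⟩
      exact isOpen_interior
    · intro a U ha hU
      obtain ⟨C, hCn, hCc, hCU⟩ := exists_mem_nhds_isClosed_subset (hU.mem_nhds ha)
      refine ⟨f {n | zY n ∈ interior C}, ⟨_, rfl⟩, ?_, ?_⟩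
      · have h1 : interior C ⊆ closure (zY '' {n | zY n ∈ interior C}) := by
          refine (hdense.open_subset_closure_inter isOpen_interior).trans (closure_mono ?_)
          rintro _ ⟨h2, ⟨n, rfl⟩⟩
          exact ⟨n, h2, rfl⟩
        exact interior_maximal h1 isOpen_interior (mem_interior_iff_mem_nhds.2 hCn)
      · refine (interior_subset.trans ?_).trans hCU
        apply hCc.closure_subset_iff.2
        rintro _ ⟨n, hn, rfl⟩
        exact interior_subset hn
  have hcard : Cardinal.mk (Set.range f) ≤ Cardinal.continuum.{u} := by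
    have h1 := Cardinal.mk_range_le_lift (f := f)
    rw [Cardinal.mk_set, Cardinal.mk_nat, Cardinal.two_power_aleph0, Cardinal.lift_continuum] at h1
    rw [← Cardinal.lift_continuum.{0, u}, ← Cardinal.lift_le.{0}]
    simpa using h1
  have hbasis' := hbasis.isInducing (IsInducing.subtypeVal.of_comp_iff.1
    (show IsInducing (((↑) : Y → G) ∘ Set.inclusion hK) from IsInducing.subtypeVal))
  have h2 : weight K ≤ Cardinal.mk (Set.preimage (Set.inclusion hK) '' Set.range f) := by
    unfold weight
    apply csInf_le'
    exact ⟨_, hbasis', rfl⟩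
  exact h2.trans (Cardinal.mk_image_le.trans hcard)

end Pool.Agent.R557.KO
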