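import Pool.Agent.R557.KO.Key
import Pool.Agent.R557.KO.KK
import Pool.Agent.R557.KO.WT
import Pool.Agent.TH264.Bridge.PW

/-!
The representation kernel of a connected locally compact group has weight at most the continuum.
-/

namespace Pool.Agent.R557.KO

open Filter Topology

universe u

/-- Peter-Weyl: continuous finite-dimensional unitary representations of a compact Hausdorff group
separate its points (every universe). -/
theorem pw (K : Type u) [TopologicalSpace K] [Group K] [IsTopologicalGroup K] [CompactSpace K]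
    [T2Space K] (a b : K) (hab : a ≠ b) :
    ∃ (r : ℕ) (ρ : K →* Matrix.unitaryGroup (Fin r) ℂ), Continuous ρ ∧ ρ a ≠ ρ b := by
  have hk : a * b⁻¹ ≠ 1 := fun h => hab (mul_inv_eq_one.1 h)
  obtain ⟨N, ρ₀, h1, h2⟩ := Pool.Agent.TH264.Bridge.PWaux1.exists_rep_ne_one K (a * b⁻¹) hk
  obtain ⟨ι, _, _, ρ, h3, h4⟩ := Pool.Agent.TH264.Bridge.PWaux2.PW_unit K (a * b⁻¹) N ρ₀ h1 h2
  let e : ι ≃ Fin (Fintype.card ι) := Fintype.equivFin ι
  have hmem : ∀ g, (ρ g : Matrix ι ι ℂ).submatrix e.symm e.symm ∈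
      Matrix.unitaryGroup (Fin (Fintype.card ι)) ℂ := by
    intro g
    rw [Matrix.mem_unitaryGroup_iff', Matrix.star_eq_conjTranspose, Matrix.conjTranspose_submatrix,
      Matrix.submatrix_mul_equiv]
    have h5 := Matrix.mem_unitaryGroup_iff'.1 (ρ g).2
    rw [Matrix.star_eq_conjTranspose] at h5
    rw [h5]
    exact Matrix.submatrix_one_equiv e.symm
  let σ : K →* Matrix.unitaryGroup (Fin (Fintype.card ι)) ℂ :=
    { toFun := fun g => ⟨(ρ g : Matrix ι ι ℂ).submatrix e.symm e.symm, hmem g⟩
      map_one' := by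
        apply Subtype.ext
        show ((ρ 1 : Matrix.unitaryGroup ι ℂ) : Matrix ι ι ℂ).submatrix e.symm e.symm = 1
        rw [map_one]
        exact Matrix.submatrix_one_equiv e.symm
      map_mul' := fun g h => by
        apply Subtype.ext
        show ((ρ (g * h) : Matrix.unitaryGroup ι ℂ) : Matrix ι ι ℂ).submatrix e.symm e.symm =
          (ρ g : Matrix ι ι ℂ).submatrix e.symm e.symm *
            (ρ h : Matrix ι ι ℂ).submatrix e.symm e.symm
        rw [map_mul, Matrix.submatrix_mul_equiv]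
        rfl }
  refine ⟨Fintype.card ι, σ, ?_, ?_⟩
  · apply Continuous.subtype_mk
    exact (continuous_subtype_val.comp h3).matrix_submatrix _ _
  · intro h5
    apply h4
    have h6 : (ρ a : Matrix ι ι ℂ).submatrix e.symm e.symm =
        (ρ b : Matrix ι ι ℂ).submatrix e.symm e.symm :=
      congrArg Subtype.val h5
    have h7 : ρ a = ρ b := by
      apply Subtype.ext
      ext i j
      have h8 := congrFun (congrFun h6 (e i)) (e j)
      simpa using h8
    rw [map_mul, map_inv, h7, mul_inv_cancel]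

section

open scoped Matrix.Norms.L2Operator

theorem norm_unitary_le {r : ℕ} (U : Matrix.unitaryGroup (Fin r) ℂ) :
    ‖(U : Matrix (Fin r) (Fin r) ℂ)‖ ≤ 1 := by
  rcases subsingleton_or_nontrivial (Matrix (Fin r) (Fin r) ℂ) with h | h
  · rw [Subsingleton.elim (U : Matrix (Fin r) (Fin r) ℂ) 0, norm_zero]
    exact zero_le_one
  · exact (CStarRing.norm_of_mem_unitary U.2).le

/-- A connected group acts on a compact normal subgroup by inner automorphisms (Iwasawa). -/
theorem inner (G : Type u) [Group G] [TopologicalSpace G] [IsTopologicalGroup G]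
    [ConnectedSpace G] (N : Subgroup G) [N.Normal] [CompactSpace N] [T2Space N] (g : G) :
    ∃ n : N, ∀ m : N, MulAut.conjNormal g m = n * m * n⁻¹ := by
  let ι : Type u := Σ r : ℕ, {ρ : N →* Matrix.unitaryGroup (Fin r) ℂ // Continuous ρ}
  let F : ι → Set N := fun i => {n | ∀ m : N, i.2.1 (MulAut.conjNormal g m) = i.2.1 (n * m * n⁻¹)}
  have hF : ∀ i, IsClosed (F i) := by
    intro i
    have h2 : F i = ⋂ m : N, {n | i.2.1 (MulAut.conjNormal g m) = i.2.1 (n * m * n⁻¹)} := by
      ext n
      simp only [F, Set.mem_iInter]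
      rfl
    rw [h2]
    refine isClosed_iInter fun m => isClosed_eq continuous_const (i.2.2.comp (by fun_prop))
  have hfin : ∀ s : Finset ι, (⋂ i ∈ s, F i).Nonempty := by
    intro s
    let f : Fin s.card → ι := fun j => (s.equivFin.symm j).1
    let π : N →* (∀ j : Fin s.card, Matrix (Fin (f j).1) (Fin (f j).1) ℂ) :=
      MonoidHom.pi fun j => (Matrix.unitaryGroup (Fin (f j).1) ℂ).subtype.comp (f j).2.1
    have hπ : Continuous π := continuous_pi fun j => continuous_subtype_val.comp (f j).2.2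
    have hn : ∀ n, ‖π n‖ ≤ 1 := fun n =>
      (pi_norm_le_iff_of_nonneg zero_le_one).2 fun j => norm_unitary_le ((f j).2.1 n)
    obtain ⟨n, hn1⟩ := key G N _ π hπ hn g
    refine ⟨n, ?_⟩
    simp only [Set.mem_iInter]
    intro i hi m
    have h3 := congrFun (hn1 m) (s.equivFin ⟨i, hi⟩)
    have h4 : f (s.equivFin ⟨i, hi⟩) = i := by simp [f]
    have h5 : ∀ j : ι, j = i → ((j.2.1 (MulAut.conjNormal g m) : Matrix.unitaryGroup _ ℂ) :
        Matrix (Fin j.1) (Fin j.1) ℂ) = (j.2.1 (n * m * n⁻¹) : Matrix.unitaryGroup _ ℂ) →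
        i.2.1 (MulAut.conjNormal g m) = i.2.1 (n * m * n⁻¹) := by
      rintro j rfl h
      exact Subtype.ext h
    exact h5 _ h4 h3
  obtain ⟨n, hn⟩ := CompactSpace.iInter_nonempty hF hfin
  refine ⟨n, fun m => ?_⟩
  by_contra hne
  obtain ⟨r, ρ, hρ, h6⟩ := pw N _ _ hne
  exact h6 ((Set.mem_iInter.1 hn ⟨r, ρ, hρ⟩) m)

end

/-- the elements of `G` that no continuous finite-dimensional complex representation separates
from the identity -/
def KO (G : Type u) [Group G] [TopologicalSpace G] : Set G :=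
  {g | ∀ (n : ℕ) (ρ : G →* GL (Fin n) ℂ), Continuous ρ → ρ g = 1}

theorem main (G : Type u) [Group G] [TopologicalSpace G] [IsTopologicalGroup G] [T2Space G]
    [LocallyCompactSpace G] [ConnectedSpace G] : weight (KO G) ≤ Cardinal.continuum := by
  obtain ⟨N, d, hN, hNc, hd⟩ := s_KK G
  have hNcs : CompactSpace N := isCompact_iff_compactSpace.1 hNc
  choose a ha using fun k => inner G N (d k)
  let z : ℕ → G := fun k => ((a k : N) : G)⁻¹ * d k
  have hz : ∀ k, ∃ b ∈ N, d k = b * z k ∧ ∀ m ∈ N, z k * m = m * z k := by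
    intro k
    refine ⟨a k, (a k).2, by simp [z], fun m hm => ?_⟩
    have h1 := congrArg (Subtype.val) (ha k ⟨m, hm⟩)
    have h2 : d k * m * (d k)⁻¹ = (a k : G) * m * (a k : G)⁻¹ := h1
    show ((a k : N) : G)⁻¹ * d k * m = m * (((a k : N) : G)⁻¹ * d k)
    calc ((a k : N) : G)⁻¹ * d k * m = ((a k : N) : G)⁻¹ * (d k * m * (d k)⁻¹) * d k := by group
      _ = m * (((a k : N) : G)⁻¹ * d k) := by rw [h2]; group
  have hS := hd z hz
  set S : Subgroup G := (Subgroup.closure (Set.range z)).topologicalClosure with hSdef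
  have hScl : IsClosed (S : Set G) := Subgroup.isClosed_topologicalClosure _
  have hScent : S ≤ Subgroup.centralizer (N : Set G) := by
    apply Subgroup.topologicalClosure_minimal
    · rw [Subgroup.closure_le]
      rintro _ ⟨k, rfl⟩
      obtain ⟨b, hb, h1, h2⟩ := hz k
      show z k ∈ Subgroup.centralizer (N : Set G)
      rw [Subgroup.mem_centralizer_iff]
      intro m hm
      exact (h2 m hm).symm
    · exact Set.isClosed_centralizer (N : Set G)
  have hSN : S.Normal := by
    constructor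
    intro x hx g
    obtain ⟨s, hs, hsg⟩ := hS g
    have h1 : g = s * (s⁻¹ * g) := by group
    have h2 := (Subgroup.mem_centralizer_iff.1 (hScent hx)) _ hsg
    have h3 : g * x * g⁻¹ = s * x * s⁻¹ := by
      have h4 : s⁻¹ * g * x * (s⁻¹ * g)⁻¹ = x := by rw [h2]; group
      calc g * x * g⁻¹ = s * (s⁻¹ * g * x * (s⁻¹ * g)⁻¹) * s⁻¹ := by group
        _ = s * x * s⁻¹ := by rw [h4]
    rw [h3]
    exact S.mul_mem (S.mul_mem hs hx) (S.inv_mem hs)
  have hcomp : CompactSpace (G ⧸ S) := by
    constructor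
    have h1 : (Set.univ : Set (G ⧸ S)) = (QuotientGroup.mk : G → G ⧸ S) '' (N : Set G) := by
      ext q
      simp only [Set.mem_univ, Set.mem_image, true_iff]
      obtain ⟨g, rfl⟩ := QuotientGroup.mk_surjective q
      obtain ⟨s, hs, hsg⟩ := hS g
      refine ⟨s⁻¹ * g, hsg, ?_⟩
      rw [QuotientGroup.eq]
      have h2 : (s⁻¹ * g)⁻¹ * g = g⁻¹ * s * g := by group
      rw [h2]
      have h3 := hSN.conj_mem s hs g⁻¹
      simpa using h3
    rw [h1]
    exact hNc.image continuous_quotient_mk'
  have hKO : KO G ⊆ (S : Set G) := by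
    intro g hg
    by_contra hgS
    have hne : (QuotientGroup.mk g : G ⧸ S) ≠ 1 := by
      intro h
      exact hgS ((QuotientGroup.eq_one_iff g).1 h)
    obtain ⟨n, ρ, hρ, h1⟩ := Pool.Agent.TH264.Bridge.PWaux1.exists_rep_ne_one (G ⧸ S) _ hne
    apply h1
    have h2 : Continuous (ρ.comp (QuotientGroup.mk' S)) :=
      hρ.comp continuous_quotient_mk'
    have h3 := hg n (MonoidHom.toHomUnits (ρ.comp (QuotientGroup.mk' S))) (by
      rw [Units.continuous_iff]
      refine ⟨h2, ?_⟩
      have h4 : Continuous fun x : G => (ρ.comp (QuotientGroup.mk' S)) x⁻¹ :=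
        h2.comp continuous_inv
      exact h4)
    have h5 := congrArg Units.val h3
    exact h5
  -- a sequence dense in `S`
  obtain ⟨w, hw⟩ : ∃ w : ℕ → FreeGroup ℕ, Function.Surjective w := exists_surjective_nat _
  have hran : Set.range (fun k => FreeGroup.lift z (w k)) =
      (Subgroup.closure (Set.range z) : Set G) := by
    rw [← FreeGroup.range_lift_eq_closure]
    ext x
    simp only [Set.mem_range, SetLike.mem_coe, MonoidHom.mem_range]
    constructor
    · rintro ⟨k, hk⟩; exact ⟨_, hk⟩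
    · rintro ⟨y, hy⟩
      obtain ⟨k, rfl⟩ := hw y
      exact ⟨k, hy⟩
  refine s_WT G (fun k => FreeGroup.lift z (w k)) (KO G) ?_
  rw [hran]
  exact hKO

end Pool.Agent.R557.KO
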