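import Mathlib

/-!
Statements of the pieces of project KO (MP_c19dcb_al): weight of the representation kernel of
connected locally compact groups.
-/

namespace Pool.Agent.R557.KO

open Filter Topology

universe u v

/-- KO-AVG: averaging over a compact group acting on a finite-dimensional normed algebra. -/
def S_AVG : Prop := ∀ (N : Type u) [Group N] [TopologicalSpace N] [IsTopologicalGroup N]
  [CompactSpace N] [T2Space N] (A : Type) [NormedRing A] [NormedAlgebra ℝ A]
  [FiniteDimensional ℝ A] (π : N →* A), Continuous π → (∀ n, ‖π n‖ ≤ 1) →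
  ∀ (W : Submodule ℝ A) (X : A), (∀ n, X - π n * X * π n⁻¹ ∈ W) →
  ∃ Y : A, (∀ n, π n * Y = Y * π n) ∧ X - Y ∈ W

/-- KO-INT: an automorphism close to the identity is implemented by an element close to `1`. -/
def S_INT : Prop := ∀ (N : Type u) [Group N] [TopologicalSpace N] [IsTopologicalGroup N]
  [CompactSpace N] [T2Space N] (A : Type) [NormedRing A] [NormedAlgebra ℝ A]
  [FiniteDimensional ℝ A] (π : N →* A), Continuous π → (∀ n, ‖π n‖ ≤ 1) →
  ∀ (φ : N ≃* N), Continuous φ → ∀ δ : ℝ, (∀ n, ‖π (φ n) - π n‖ ≤ δ) →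
  ∃ T : A, ‖T - 1‖ ≤ δ ∧ ∀ n, T * π n = π (φ n) * T

/-- KO-LOC: elements close to `1` that normalize a compact group `P` of elements of a
finite-dimensional normed algebra lie in `P` times the commutant of `P`. -/
def S_LOC : Prop := ∀ (A : Type) [NormedRing A] [NormedAlgebra ℝ A] [FiniteDimensional ℝ A]
  (P : Set A), IsClosed P → (1 : A) ∈ P → (∀ a ∈ P, ∀ b ∈ P, a * b ∈ P) →
  (∀ a ∈ P, ∃ b ∈ P, a * b = 1 ∧ b * a = 1) → (∀ a ∈ P, ‖a‖ ≤ 1) →
  (∀ (W : Submodule ℝ A) (X : A), (∀ a ∈ P, ∀ b ∈ P, a * b = 1 → X - a * X * b ∈ W) →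
    ∃ Y : A, (∀ a ∈ P, a * Y = Y * a) ∧ X - Y ∈ W) →
  ∃ δ > 0, ∀ T : A, ‖T - 1‖ < δ → (∀ a ∈ P, ∃ b ∈ P, T * a = b * T) →
    ∃ p ∈ P, ∃ c : A, (∀ a ∈ P, a * c = c * a) ∧ T = p * c

/-- KO-KK (after Kakutani and Kodaira): a connected locally compact group has a compact normal
subgroup `N` such that the quotient by `N` is separable; moreover the countable set can be moved
inside the cosets of `N`. -/
def S_KK : Prop := ∀ (G : Type u) [Group G] [TopologicalSpace G] [IsTopologicalGroup G]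
  [T2Space G] [LocallyCompactSpace G] [ConnectedSpace G],
  ∃ (N : Subgroup G) (d : ℕ → G), N.Normal ∧ IsCompact (N : Set G) ∧
    ∀ z : ℕ → G, (∀ n, ∃ a ∈ N, d n = a * z n ∧ ∀ m ∈ N, z n * m = m * z n) →
    ∀ g : G, ∃ s ∈ (Subgroup.closure (Set.range z)).topologicalClosure, s⁻¹ * g ∈ N

/-- the weight of a topological space -/
noncomputable def weight (X : Type u) [TopologicalSpace X] : Cardinal.{u} :=
  sInf {c | ∃ B : Set (Set X), TopologicalSpace.IsTopologicalBasis B ∧ Cardinal.mk B = c}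

/-- KO-WT: subspaces of separable regular spaces have weight at most the continuum. -/
def S_WT : Prop := ∀ (G : Type u) [TopologicalSpace G] [RegularSpace G] (z : ℕ → G) (K : Set G),
  K ⊆ closure (Set.range z) → weight K ≤ Cardinal.continuum

end Pool.Agent.R557.KO
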